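import Pool.Agent.L0h42.CL.Stm

/-! Module CF: one conflict, on average over the constant term. -/

set_option autoImplicit false

namespace Pool.Agent.L0h63.CL
open Finset
open Pool.Agent.L0h42.TB
open Pool.Agent.L0h42.CL
open Pool.Agent.H373R2.T7

open Classical in
lemma exists_filter (S : Finset ℕ) (p : ℕ → Prop) : ∃ T : Finset ℕ, ∀ t, t ∈ T ↔ t ∈ S ∧ p t :=
  ⟨S.filter p, fun _ => mem_filter⟩

/-- the number of elements of a residue class in an interval -/
lemma class_card (u v M : ℕ) (hM : 1 ≤ M) (huv : u ≤ v) (S : Finset ℕ) (hS : S ⊆ Ioc u v)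
    (h : ∀ s ∈ S, ∀ s' ∈ S, (M : ℤ) ∣ (s : ℤ) - s') : (S.card : ℝ) ≤ ((v : ℝ) - u) / M + 1 := by
  have huv' : (u : ℝ) ≤ v := by exact_mod_cast huv
  rcases S.eq_empty_or_nonempty with rfl | ⟨s0, hs0⟩
  · rw [card_empty, Nat.cast_zero]
    have : 0 ≤ ((v : ℝ) - u) / M := div_nonneg (by linarith) (Nat.cast_nonneg _)
    linarith
  · have h1 : S ⊆ (Ioc u v).filter (fun n => n ≡ s0 [MOD M]) := by
      intro s hs
      rw [mem_filter]
      exact ⟨hS hs, Nat.modEq_iff_dvd.mpr (h s0 hs0 s hs)⟩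
    have h2 := Nat.Ioc_filter_modEq_card u v (show 0 < M by omega) s0
    have h3 : (S.card : ℤ) ≤ max (⌊((v : ℚ) - s0) / M⌋ - ⌊((u : ℚ) - s0) / M⌋) 0 := by
      rw [← h2]
      exact_mod_cast card_le_card h1
    have hM0 : (0 : ℚ) < M := by exact_mod_cast (by omega : 0 < M)
    have h4 : ((⌊((v : ℚ) - s0) / M⌋ : ℤ) : ℚ) ≤ ((v : ℚ) - s0) / M := Int.floor_le _
    have h5 : ((u : ℚ) - s0) / M < (⌊((u : ℚ) - s0) / M⌋ : ℤ) + 1 := Int.lt_floor_add_one _
    have huv'' : (u : ℚ) ≤ v := by exact_mod_cast huv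
    have h6 : (S.card : ℚ) ≤ ((v : ℚ) - u) / M + 1 := by
      have h7 : (S.card : ℚ) ≤ max ((⌊((v : ℚ) - s0) / M⌋ : ℚ) - ⌊((u : ℚ) - s0) / M⌋) 0 := by
        exact_mod_cast h3
      refine h7.trans (max_le ?_ ?_)
      · have e : ((v : ℚ) - u) / M = ((v : ℚ) - s0) / M - ((u : ℚ) - s0) / M := by ring
        rw [e]
        linarith
      · have : 0 ≤ ((v : ℚ) - u) / M := div_nonneg (by linarith) hM0.le
        linarith
    have h8 : ((S.card : ℚ) : ℝ) ≤ ((((v : ℚ) - u) / M + 1 : ℚ) : ℝ) := by exact_mod_cast h6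
    push_cast at h8
    exact h8

/-- divisibility by all the primes of a set -/
lemma prod_dvd (P : Finset ℕ) (hP : ∀ p ∈ P, p.Prime) (n : ℤ) (h : ∀ p ∈ P, (p : ℤ) ∣ n) :
    ((∏ p ∈ P, p : ℕ) : ℤ) ∣ n := by
  push_cast
  apply Finset.prod_dvd_of_coprime _ h
  intro p hp q hq hpq
  exact Nat.isCoprime_iff_coprime.mpr ((Nat.coprime_primes (hP p hp) (hP q hq)).mpr hpq)

section forms

variable {k : ℕ} {a0 b0 : ℤ} {h : Fin k → ℕ} {z : ℕ}

lemma not_dvd_small {p : ℕ} {n : ℤ} (hn : n ≠ 0) (h1 : |n| < p) : ¬ (p : ℤ) ∣ n := by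
  intro h2
  have := Int.le_of_dvd (abs_pos.mpr hn) ((dvd_abs _ _).mpr h2)
  omega

/-- two forms divisible by the same prime -/
lemma two_dvd (ha0 : 1 ≤ a0) (hinj : Function.Injective h) (hz : ∀ l, 2 * a0 * (h l + 1) ≤ z)
    {p : ℕ} (hp : p.Prime) (hpz : z < p) {l m : Fin k} (hlm : l ≠ m) {a t : ℤ}
    (h1 : (p : ℤ) ∣ a + gz a0 b0 (t + h l)) (h2 : (p : ℤ) ∣ a + gz a0 b0 (t + h m)) :
    (p : ℤ) ∣ a0 * (2 * t + h l + h m) + b0 := by
  have h3 : (p : ℤ) ∣ ((h l : ℤ) - h m) * (a0 * (2 * t + h l + h m) + b0) := by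
    have := dvd_sub h1 h2
    have e : a + gz a0 b0 (t + h l) - (a + gz a0 b0 (t + h m)) =
        ((h l : ℤ) - h m) * (a0 * (2 * t + h l + h m) + b0) := by
      unfold gz; ring
    rwa [e] at this
  rcases (Nat.prime_iff_prime_int.mp hp).dvd_or_dvd h3 with h4 | h4
  · exfalso
    have hl := hz l
    have hm := hz m
    have hlt : ∀ j : Fin k, (h j : ℤ) < p := by
      intro j
      have := hz j
      have h5 : (0 : ℤ) ≤ h j := Int.natCast_nonneg _
      have h6 : (z : ℤ) < p := by exact_mod_cast hpz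
      nlinarith
    have hne : (h l : ℤ) - h m ≠ 0 := by
      intro h5
      apply hlm
      apply hinj
      have : (h l : ℤ) = h m := by linarith
      exact_mod_cast this
    refine not_dvd_small hne ?_ h4
    have h5 := hlt l
    have h6 := hlt m
    have h7 : (0 : ℤ) ≤ h l := Int.natCast_nonneg _
    have h8 : (0 : ℤ) ≤ h m := Int.natCast_nonneg _
    rw [abs_lt]
    constructor <;> linarith
  · exact h4

lemma lt_p (ha0 : 1 ≤ a0) (hz : ∀ l, 2 * a0 * (h l + 1) ≤ z) {p : ℕ} (hpz : z < p) (l : Fin k) :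
    2 * a0 < p := by
  have := hz l
  have h5 : (0 : ℤ) ≤ h l := Int.natCast_nonneg _
  have h6 : (z : ℤ) < p := by exact_mod_cast hpz
  nlinarith

/-- three forms are impossible -/
lemma three_dvd (ha0 : 1 ≤ a0) (hinj : Function.Injective h) (hz : ∀ l, 2 * a0 * (h l + 1) ≤ z)
    {p : ℕ} (hp : p.Prime) (hpz : z < p) {l m n : Fin k} (hlm : l ≠ m) (hln : l ≠ n) (hmn : m ≠ n)
    {a t : ℤ} (h1 : (p : ℤ) ∣ a + gz a0 b0 (t + h l)) (h2 : (p : ℤ) ∣ a + gz a0 b0 (t + h m))
    (h3 : (p : ℤ) ∣ a + gz a0 b0 (t + h n)) : False := by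
  have g1 := two_dvd ha0 hinj hz hp hpz hlm h1 h2
  have g2 := two_dvd ha0 hinj hz hp hpz hln h1 h3
  have g3 : (p : ℤ) ∣ a0 * ((h m : ℤ) - h n) := by
    have := dvd_sub g1 g2
    have e : a0 * (2 * t + h l + h m) + b0 - (a0 * (2 * t + h l + h n) + b0) =
        a0 * ((h m : ℤ) - h n) := by ring
    rwa [e] at this
  rcases (Nat.prime_iff_prime_int.mp hp).dvd_or_dvd g3 with h4 | h4
  · have h5 := lt_p ha0 hz hpz l
    exact not_dvd_small (by omega) (by rw [abs_of_pos (by omega)]; omega) h4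
  · have hlt : ∀ j : Fin k, (h j : ℤ) < p := by
      intro j
      have := hz j
      have h5 : (0 : ℤ) ≤ h j := Int.natCast_nonneg _
      have h6 : (z : ℤ) < p := by exact_mod_cast hpz
      nlinarith
    have hne : (h m : ℤ) - h n ≠ 0 := by
      intro h5
      apply hmn
      apply hinj
      have : (h m : ℤ) = h n := by linarith
      exact_mod_cast this
    refine not_dvd_small hne ?_ h4
    have h5 := hlt m
    have h6 := hlt n
    have h7 : (0 : ℤ) ≤ h m := Int.natCast_nonneg _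
    have h8 : (0 : ℤ) ≤ h n := Int.natCast_nonneg _
    rw [abs_lt]
    constructor <;> linarith

/-- the argument is determined -/
lemma t_dvd (ha0 : 1 ≤ a0) (hinj : Function.Injective h) (hz : ∀ l, 2 * a0 * (h l + 1) ≤ z)
    {p : ℕ} (hp : p.Prime) (hpz : z < p) {l m : Fin k} (hlm : l ≠ m) {a t a' t' : ℤ}
    (h1 : (p : ℤ) ∣ a + gz a0 b0 (t + h l)) (h2 : (p : ℤ) ∣ a + gz a0 b0 (t + h m))
    (h3 : (p : ℤ) ∣ a' + gz a0 b0 (t' + h l)) (h4 : (p : ℤ) ∣ a' + gz a0 b0 (t' + h m)) :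
    (p : ℤ) ∣ t - t' := by
  have g1 := two_dvd ha0 hinj hz hp hpz hlm h1 h2
  have g2 := two_dvd ha0 hinj hz hp hpz hlm h3 h4
  have g3 : (p : ℤ) ∣ (2 * a0) * (t - t') := by
    have := dvd_sub g1 g2
    have e : a0 * (2 * t + h l + h m) + b0 - (a0 * (2 * t' + h l + h m) + b0) =
        (2 * a0) * (t - t') := by ring
    rwa [e] at this
  rcases (Nat.prime_iff_prime_int.mp hp).dvd_or_dvd g3 with h5 | h5
  · exfalso
    have h6 := lt_p ha0 hz hpz l
    exact not_dvd_small (by omega) (by rw [abs_of_pos (by omega)]; omega) h5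
  · exact h5

end forms

open Classical in
/-- the product of squarefree numbers, no three of which have a common factor -/
lemma prod_le {κ : Type*} [Fintype κ] (e : κ → ℕ) (hsq : ∀ l, Squarefree (e l))
    (h3 : ∀ p : ℕ, p.Prime → ∀ l m n, l ≠ m → l ≠ n → m ≠ n → p ∣ e l → p ∣ e m → ¬ p ∣ e n) :
    ∀ P2 : Finset ℕ, (∀ p, p ∈ P2 ↔ p ∈ (∏ l, e l).primeFactors ∧ ∃ l m, l ≠ m ∧ p ∣ e l ∧
      p ∣ e m) → ∏ l, e l ≤ (∏ p ∈ (∏ l, e l).primeFactors, p) * ∏ p ∈ P2, p := by
  intro P2 hP2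
  have hP2' : P2 = (∏ l, e l).primeFactors.filter (fun p => ∃ l m, l ≠ m ∧ p ∣ e l ∧ p ∣ e m) := by
    ext p
    rw [hP2, mem_filter]
  rw [hP2']
  have h0 : ∀ l, e l ≠ 0 := fun l => (hsq l).ne_zero
  have h0' : ∏ l, e l ≠ 0 := prod_ne_zero_iff.mpr fun l _ => h0 l
  have h1 : ∀ l, e l = ∏ p ∈ (∏ l, e l).primeFactors, (if p ∣ e l then p else 1) := by
    intro l
    conv_lhs => rw [← Nat.prod_primeFactors_of_squarefree (hsq l)]
    rw [← prod_filter]
    apply prod_congr _ fun _ _ => rfl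
    ext p
    rw [mem_filter, Nat.mem_primeFactors, Nat.mem_primeFactors]
    constructor
    · rintro ⟨g1, g2, _⟩
      exact ⟨⟨g1, g2.trans (dvd_prod_of_mem e (mem_univ l)), h0'⟩, g2⟩
    · rintro ⟨⟨g1, _, _⟩, g2⟩
      exact ⟨g1, g2, h0 l⟩
  calc ∏ l, e l = ∏ l, ∏ p ∈ (∏ l, e l).primeFactors, (if p ∣ e l then p else 1) :=
        prod_congr rfl fun l _ => h1 l
    _ = ∏ p ∈ (∏ l, e l).primeFactors, ∏ l, (if p ∣ e l then p else 1) := prod_comm
    _ ≤ ∏ p ∈ (∏ l, e l).primeFactors,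
        (p * (if ∃ l m, l ≠ m ∧ p ∣ e l ∧ p ∣ e m then p else 1)) := by
        apply prod_le_prod' 
        intro p hp
        have hpp := Nat.prime_of_mem_primeFactors hp
        rw [← prod_filter, prod_const]
        by_cases hc : ∃ l m, l ≠ m ∧ p ∣ e l ∧ p ∣ e m
        · rw [if_pos hc, ← pow_two]
          apply Nat.pow_le_pow_right hpp.pos
          obtain ⟨l, m, hlm, g1, g2⟩ := hc
          have : univ.filter (fun l => p ∣ e l) ⊆ {l, m} := by
            intro n hn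
            rw [mem_filter] at hn
            rw [mem_insert, mem_singleton]
            by_contra hcon
            push Not at hcon
            exact h3 p hpp l m n hlm (Ne.symm hcon.1) (Ne.symm hcon.2) g1 g2 hn.2
          exact (card_le_card this).trans card_le_two
        · rw [if_neg hc, mul_one]
          push Not at hc
          have : (univ.filter (fun l => p ∣ e l)).card ≤ 1 := by
            rw [card_le_one]
            intro l hl m hm
            rw [mem_filter] at hl hm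
            by_contra hlm
            exact hc l m hlm hl.2 hm.2
          calc p ^ (univ.filter (fun l => p ∣ e l)).card ≤ p ^ 1 :=
                Nat.pow_le_pow_right hpp.pos this
            _ = p := pow_one p
    _ = _ := by
        rw [prod_mul_distrib, prod_filter]

theorem t_CF : S_CF := by
  classical
  intro k a0 b0 h z R X T1 T2 N ha0 hinj hz hXN hT x hx hmT hmN
  rw [mem_product] at hx
  obtain ⟨a1, a2, a3⟩ := lc_rough hx.1 hx.2
  have hgt : ∀ p : ℕ, p.Prime → ∀ l, p ∣ lc x l → z < p := by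
    intro p hp l hl
    by_contra hcon
    exact a2 l p (mem_pz.2 ⟨by omega, hp⟩) hl
  have hhit : ∀ (a t : ℕ), Hit (cq a0 b0 h t) (lc x) a → ∀ (p : ℕ) (l : Fin k), p ∣ lc x l →
      (p : ℤ) ∣ (a : ℤ) + gz a0 b0 ((t : ℤ) + h l) := by
    intro a t hH p l hl
    have h1 := hH l
    have e : (a : ℤ) - cq a0 b0 h t l = (a : ℤ) + gz a0 b0 ((t : ℤ) + h l) := by
      unfold cq; ring
    rw [e] at h1
    exact (Int.natCast_dvd_natCast.mpr hl).trans h1
  have hmo1 : 1 ≤ mo x := Nat.pos_of_ne_zero (prod_ne_zero_iff.2 fun l _ => by have := a1 l; omega)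
  have hmo0 : (0 : ℝ) < mo x := by exact_mod_cast hmo1
  have hTr : (T1 : ℝ) ≤ T2 := by exact_mod_cast hT
  by_cases hthree : ∀ p : ℕ, p.Prime → ∀ l m n, l ≠ m → l ≠ n → m ≠ n → p ∣ lc x l → p ∣ lc x m →
      ¬ p ∣ lc x n
  · -- the two moduli
    obtain ⟨P, hP⟩ : ∃ P : Finset ℕ, P = (∏ l, lc x l).primeFactors := ⟨_, rfl⟩
    obtain ⟨P2, hP2⟩ : ∃ P2 : Finset ℕ, ∀ p, p ∈ P2 ↔ p ∈ P ∧ ∃ l m, l ≠ m ∧ p ∣ lc x l ∧
      p ∣ lc x m := ⟨P.filter (fun p => ∃ l m, l ≠ m ∧ p ∣ lc x l ∧ p ∣ lc x m), fun p => by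
        rw [mem_filter]⟩
    have hPp : ∀ p ∈ P, p.Prime := by
      intro p hp
      rw [hP] at hp
      exact Nat.prime_of_mem_primeFactors hp
    have hPd : ∀ p ∈ P, ∃ l, p ∣ lc x l := by
      intro p hp
      have hpp := hPp p hp
      rw [hP] at hp
      have h1 := Nat.dvd_of_mem_primeFactors hp
      obtain ⟨l, _, hl⟩ := (hpp.prime.dvd_finsetProd_iff _).mp h1
      exact ⟨l, hl⟩
    obtain ⟨L, hL⟩ : ∃ L : ℕ, L = ∏ p ∈ P, p := ⟨_, rfl⟩
    obtain ⟨M, hM⟩ : ∃ M : ℕ, M = ∏ p ∈ P2, p := ⟨_, rfl⟩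
    have hle : mo x ≤ L * M := by
      rw [hL, hM, hP]
      exact prod_le (lc x) a3 hthree P2 (by rw [← hP]; exact hP2)
    have hL1 : 1 ≤ L := by
      rw [hL]
      exact Nat.pos_of_ne_zero (prod_ne_zero_iff.2 fun p hp => (hPp p hp).ne_zero)
    have hM1 : 1 ≤ M := by
      rw [hM]
      refine Nat.pos_of_ne_zero (prod_ne_zero_iff.2 fun p hp => ?_)
      rw [hP2] at hp
      exact (hPp p hp.1).ne_zero
    have hLmo : L ≤ mo x := by
      apply Nat.le_of_dvd hmo1
      rw [hL, hP]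
      exact Nat.prod_primeFactors_dvd _
    have hML : M ≤ L := by
      apply Nat.le_of_dvd hL1
      rw [hL, hM]
      exact prod_dvd_prod_of_subset _ _ _ (fun p hp => ((hP2 p).mp hp).1)
    have hL0 : (0 : ℝ) < L := by exact_mod_cast hL1
    have hM0 : (0 : ℝ) < M := by exact_mod_cast hM1
    -- the number of constant terms
    have hA : ∀ t : ℕ, (((Icc 1 X).filter (fun a : ℕ => Hit (cq a0 b0 h t) (lc x) a)).card : ℝ) ≤
        2 * N / L := by
      intro t
      have h1 := class_card 0 X L hL1 (Nat.zero_le _)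
        ((Icc 1 X).filter (fun a : ℕ => Hit (cq a0 b0 h t) (lc x) a)) (by
          intro a ha
          rw [mem_filter, mem_Icc] at ha
          rw [mem_Ioc]
          omega) (by
          intro a ha a' ha'
          rw [mem_filter] at ha ha'
          rw [hL]
          apply prod_dvd P hPp
          intro p hp
          obtain ⟨l, hl⟩ := hPd p hp
          have g := dvd_sub (hhit a t ha.2 p l hl) (hhit a' t ha'.2 p l hl)
          have e : (a : ℤ) + gz a0 b0 ((t : ℤ) + h l) - ((a' : ℤ) + gz a0 b0 ((t : ℤ) + h l)) =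
            (a : ℤ) - a' := by ring
          rwa [e] at g)
      refine h1.trans ?_
      have h2 : (1 : ℝ) ≤ N / L := by
        rw [one_le_div hL0]
        exact_mod_cast hLmo.trans hmN
      have h3 : ((X : ℝ) - (0 : ℕ)) / L ≤ N / L := by
        apply div_le_div_of_nonneg_right _ hL0.le
        have : (X : ℝ) ≤ N := by exact_mod_cast hXN
        push_cast
        linarith
      calc ((X : ℝ) - (0 : ℕ)) / L + 1 ≤ N / L + N / L := by linarith
        _ = 2 * N / L := by ring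
    -- the number of arguments
    obtain ⟨Ts, hTs⟩ : ∃ Ts : Finset ℕ, ∀ t, t ∈ Ts ↔ t ∈ Ioc T1 T2 ∧ ∃ a ∈ Icc 1 X,
      Hit (cq a0 b0 h t) (lc x) a := exists_filter _ _
    have hB : (Ts.card : ℝ) ≤ 2 * ((T2 : ℝ) - T1) / M := by
      have h1 := class_card T1 T2 M hM1 hT Ts (fun t ht => ((hTs t).mp ht).1) (by
        intro t ht t' ht'
        rw [hTs] at ht ht'
        obtain ⟨_, a, _, ha⟩ := ht
        obtain ⟨_, a', _, ha'⟩ := ht'
        rw [hM]
        apply prod_dvd P2 (fun p hp => hPp p ((hP2 p).mp hp).1)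
        intro p hp
        rw [hP2] at hp
        obtain ⟨hp1, l, m, hlm, g1, g2⟩ := hp
        exact t_dvd ha0 hinj hz (hPp p hp1) (hgt p (hPp p hp1) l g1) hlm (hhit a t ha p l g1)
          (hhit a t ha p m g2) (hhit a' t' ha' p l g1) (hhit a' t' ha' p m g2))
      refine h1.trans ?_
      have h2 : (1 : ℝ) ≤ ((T2 : ℝ) - T1) / M := by
        rw [one_le_div hM0, ← Nat.cast_sub hT]
        exact_mod_cast (hML.trans hLmo).trans hmT
      calc ((T2 : ℝ) - T1) / M + 1 ≤ ((T2 : ℝ) - T1) / M + ((T2 : ℝ) - T1) / M := by linarith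
        _ = 2 * ((T2 : ℝ) - T1) / M := by ring
    -- the count
    have hswap : ∑ a ∈ Icc 1 X, (((Ioc T1 T2).filter (fun t : ℕ =>
        Hit (cq a0 b0 h t) (lc x) a)).card : ℝ) =
        ∑ t ∈ Ioc T1 T2, (((Icc 1 X).filter (fun a : ℕ => Hit (cq a0 b0 h t) (lc x) a)).card : ℝ) := by
      simp only [card_filter]
      push_cast
      exact sum_comm
    rw [hswap]
    have hres : ∑ t ∈ Ioc T1 T2, (((Icc 1 X).filter (fun a : ℕ =>
        Hit (cq a0 b0 h t) (lc x) a)).card : ℝ) =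
        ∑ t ∈ Ts, (((Icc 1 X).filter (fun a : ℕ => Hit (cq a0 b0 h t) (lc x) a)).card : ℝ) := by
      symm
      apply sum_subset
      · exact fun t ht => ((hTs t).mp ht).1
      · intro t ht ht'
        rw [hTs, not_and] at ht'
        have h1 := ht' ht
        rw [Nat.cast_eq_zero, card_eq_zero, filter_eq_empty_iff]
        intro a ha hH
        exact h1 ⟨a, ha, hH⟩
    rw [hres]
    calc ∑ t ∈ Ts, (((Icc 1 X).filter (fun a : ℕ => Hit (cq a0 b0 h t) (lc x) a)).card : ℝ) ≤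
          ∑ _t ∈ Ts, 2 * (N : ℝ) / L := sum_le_sum fun t _ => hA t
      _ = Ts.card * (2 * N / L) := by rw [sum_const, nsmul_eq_mul]
      _ ≤ (2 * ((T2 : ℝ) - T1) / M) * (2 * N / L) :=
          mul_le_mul_of_nonneg_right hB (by positivity)
      _ = 4 * N * ((T2 : ℝ) - T1) / (L * M) := by field_simp; ring
      _ ≤ 4 * N * ((T2 : ℝ) - T1) / mo x := by
          apply div_le_div_of_nonneg_left _ hmo0 (by exact_mod_cast hle)
          have : 0 ≤ (T2 : ℝ) - T1 := by linarith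
          positivity
  · push Not at hthree
    obtain ⟨p, hp, l, m, n, hlm, hln, hmn, g1, g2, g3⟩ := hthree
    have h0 : ∑ a ∈ Icc 1 X, (((Ioc T1 T2).filter (fun t : ℕ =>
        Hit (cq a0 b0 h t) (lc x) a)).card : ℝ) = 0 := by
      apply sum_eq_zero
      intro a _
      rw [Nat.cast_eq_zero, card_eq_zero, filter_eq_empty_iff]
      intro t _ hH
      exact three_dvd ha0 hinj hz hp (hgt p hp l g1) hlm hln hmn (hhit a t hH p l g1)
        (hhit a t hH p m g2) (hhit a t hH p n g3)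
    have h1 : 0 ≤ 4 * N * ((T2 : ℝ) - T1) / mo x := by
      have : 0 ≤ (T2 : ℝ) - T1 := by linarith
      positivity
    rw [h0]
    exact h1

end Pool.Agent.L0h63.CL
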